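import Pool.Agent.Helper72.ZF.Defs

/-!
Row FPUSH of MP_bd895b_F (Helper61): the push-forward of zero-cycles from a family to its base.
-/

set_option autoImplicit false

open MvPolynomial

namespace ZC

universe u

section

variable {K : Type u} [Field K] {m s : ℕ} {B : ProjVar K m s} {n r : ℕ}

/-- The relative degree of the coordinate fields of an image point. -/
theorem relfinrank_coordField {L M : Type*} [Field L] [Algebra K L] [Field M] [Algebra K M]
    {m n : ℕ} (f : L →ₐ[K] M) (b c : M) (hb : b ≠ 0) (hc : c ≠ 0) (x : Fin (m + 1) → L)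
    (y : Fin (n + 1) → L) :
    (coordField K (fun i => b * f (x i))).relfinrank
        (coordField K (fun i => b * f (x i)) ⊔ coordField K (fun i => c * f (y i))) =
      (coordField K x).relfinrank (coordField K x ⊔ coordField K y) := by
  rw [coordField_image f b hb x, coordField_image f c hc y, ← IntermediateField.map_sup,
    IntermediateField.relfinrank_map_map]

theorem Family.pushPt_aux (X : Family B n r) (p q : X.GPt) (h : X.gSetoid.r p q) :
    Finsupp.single (Quotient.mk (ZC.gSetoid B) ⟨p.1.1, p.2.1⟩)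
      ((coordField K p.1.1).relfinrank (coordField K p.1.1 ⊔ coordField K p.1.2) : ℤ) =
    Finsupp.single (Quotient.mk (ZC.gSetoid B) ⟨q.1.1, q.2.1⟩)
      ((coordField K q.1.1).relfinrank (coordField K q.1.1 ⊔ coordField K q.1.2) : ℤ) := by
  obtain ⟨σ, b, c, hb, hc, h1, h2⟩ := h
  have h3 : Quotient.mk (ZC.gSetoid B) ⟨p.1.1, p.2.1⟩ = Quotient.mk (ZC.gSetoid B) ⟨q.1.1, q.2.1⟩ :=
    Quotient.sound ⟨σ, b, hb, h1⟩
  have h4 : q.1.1 = fun i => b * (σ : AlgebraicClosure K →ₐ[K] AlgebraicClosure K) (p.1.1 i) :=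
    funext h1
  have h5 : q.1.2 = fun i => c * (σ : AlgebraicClosure K →ₐ[K] AlgebraicClosure K) (p.1.2 i) :=
    funext h2
  have h6 : (coordField K q.1.1).relfinrank (coordField K q.1.1 ⊔ coordField K q.1.2) =
      (coordField K p.1.1).relfinrank (coordField K p.1.1 ⊔ coordField K p.1.2) := by
    rw [h4, h5, relfinrank_coordField _ b c hb hc]
  rw [h3, h6]

/-- The push-forward of a closed point `Q` of `X`: the closed point `P` under it with the
multiplicity `[K(Q) : K(P)]`. -/
noncomputable def Family.pushPt (X : Family B n r) : X.ClosedPoint → ZC.ClosedPoint B →₀ ℤ :=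
  Quotient.lift (fun p : X.GPt => Finsupp.single (Quotient.mk (ZC.gSetoid B) ⟨p.1.1, p.2.1⟩)
      ((coordField K p.1.1).relfinrank (coordField K p.1.1 ⊔ coordField K p.1.2) : ℤ))
    X.pushPt_aux

/-- The push-forward of zero-cycles. -/
noncomputable def Family.pushZ (X : Family B n r) :
    (X.ClosedPoint →₀ ℤ) →+ (ZC.ClosedPoint B →₀ ℤ) :=
  Finsupp.liftAddHom fun Q => zmultiplesHom _ (X.pushPt Q)

theorem Family.pushPt_closedPt (X : Family B n r) {L : Type*} [Field L] [Algebra K L]
    [Algebra.IsAlgebraic K L] (x : Fin (m + 1) → L) (y : Fin (n + 1) → L) (h : X.IsPt x y) :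
    X.pushPt (X.closedPt x y h) = Finsupp.single (ZC.closedPt B x h.1)
      ((coordField K x).relfinrank (coordField K x ⊔ coordField K y) : ℤ) := by
  have h1 := relfinrank_coordField (IsAlgClosed.lift : L →ₐ[K] AlgebraicClosure K) 1 1
    one_ne_zero one_ne_zero x y
  simp only [one_mul] at h1
  rw [← h1]
  rfl

theorem Family.pushZ_ptCycle (X : Family B n r) {L : Type*} [Field L] [Algebra K L]
    (x : Fin (m + 1) → L) (y : Fin (n + 1) → L) (h : X.IsPt x y) :
    X.pushZ (X.ptCycle x y h) = ZC.ptCycle B x h.1 := by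
  by_cases ha : Algebra.IsAlgebraic K L
  · rw [Family.ptCycle, dif_pos ha, ZC.ptCycle, dif_pos ha, Family.pushZ,
      Finsupp.liftAddHom_apply_single, zmultiplesHom_apply, Family.pushPt_closedPt,
      Finsupp.smul_single, smul_eq_mul]
    congr 1
    have h1 := IntermediateField.relfinrank_mul_finrank_top
      (le_sup_left : coordField K x ≤ coordField K x ⊔ coordField K y)
    rw [← h1]
    push_cast
    ring
  · rw [Family.ptCycle, dif_neg ha, ZC.ptCycle, dif_neg ha, map_zero]

theorem Family.pushZ_curveCycle (X : Family B n r) {E : Type u} [Field E] [Algebra K E]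
    (hE : IsCurveField K E) (x : Fin (m + 1) → E) (y : Fin (n + 1) → E) (h : X.IsPt x y) (g : E)
    (hg : g ≠ 0) : X.pushZ (X.curveCycle x y h g) = ZC.curveCycle B x h.1 g := by
  rw [Family.curveCycle, ZC.curveCycle, AddMonoidHom.map_finsum]
  · refine finsum_congr fun w => ?_
    rw [map_zsmul, Family.pushZ_ptCycle]
  · refine (sum_ord_deg hE g hg).1.subset fun w hw => ?_
    intro h0
    apply hw
    change w.ord g • _ = 0
    rw [h0, zero_smul]

theorem Family.ratEquiv_le (X : Family B n r) :
    X.ratEquiv ≤ (ZC.ratEquiv B).comap X.pushZ := by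
  rw [Family.ratEquiv, AddSubgroup.closure_le]
  rintro c ⟨E, iF, iA, hE, x, y, h, g, hg, rfl⟩
  change X.pushZ _ ∈ ZC.ratEquiv B
  rw [X.pushZ_curveCycle hE x y h g hg]
  exact AddSubgroup.subset_closure ⟨E, iF, iA, hE, x, h.1, g, hg, rfl⟩

/-- The push-forward `CH0 (X) → CH0 (B)`. -/
noncomputable def Family.push (X : Family B n r) : X.CH0 →+ ZC.CH0 B :=
  QuotientAddGroup.map X.ratEquiv (ZC.ratEquiv B) X.pushZ X.ratEquiv_le

end

end ZC
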